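import Pool.Agent.Lib.MP_eee7a8_ag.TB.Iface1

/-!
# TAGBR, module STAB
-/

set_option autoImplicit false

open Matrix

namespace Pool.Agent.Lib.MP_eee7a8_ag.TB

namespace H86

lemma par_ext {g h : SLZ} (h1 : g.1 0 0 = h.1 0 0) (h2 : g.1 0 1 = h.1 0 1)
    (h3 : g.1 1 0 = h.1 1 0) (h4 : g.1 1 1 = h.1 1 1) : g = h := by
  apply Subtype.ext
  ext i j
  fin_cases i <;> fin_cases j <;> assumption

lemma par_mul (a : Cusp) (m n : ℤ) : par a m * par a n = par a (m + n) := by
  apply par_ext <;>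
  · simp only [Matrix.SpecialLinearGroup.coe_mul, Matrix.mul_apply, Fin.sum_univ_two, par,
      Matrix.of_apply, Matrix.cons_val', Matrix.cons_val_zero, Matrix.cons_val_one,
      Matrix.cons_val_fin_one, Matrix.empty_val']
    ring

lemma par_zero (a : Cusp) : par a 0 = 1 := by
  apply par_ext <;> simp [par]

lemma par_inv (a : Cusp) (n : ℤ) : (par a n)⁻¹ = par a (-n) := by
  rw [inv_eq_iff_mul_eq_one, par_mul, add_neg_cancel, par_zero]

lemma par_pow (a : Cusp) (n : ℕ) : (par a 1) ^ n = par a n := by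
  induction n with
  | zero => simp [par_zero]
  | succ n ih => rw [pow_succ, ih, par_mul]; push_cast; rfl

/-- an element fixing the vector `a` is a `par` -/
lemma eq_par (g : SLZ) (a : Cusp) (h1 : g.1 0 0 * a.x + g.1 0 1 * a.y = a.x)
    (h2 : g.1 1 0 * a.x + g.1 1 1 * a.y = a.y) : ∃ n : ℤ, g = par a n := by
  obtain ⟨u, v, huv⟩ := a.cop
  have hd := det_eq g
  -- `(g00 - 1, g01) = lam (-y, x)`
  have k1 : (g.1 0 0 - 1) = -(v * (-(g.1 0 0 - 1)) + u * g.1 0 1) * a.y := by
    linear_combination (-(g.1 0 0 - 1)) * huv + u * h1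
  have k2 : g.1 0 1 = (v * (-(g.1 0 0 - 1)) + u * g.1 0 1) * a.x := by
    linear_combination (-(g.1 0 1)) * huv + v * h1
  have k3 : g.1 1 0 = -(v * (-(g.1 1 0)) + u * (g.1 1 1 - 1)) * a.y := by
    linear_combination (-(g.1 1 0)) * huv + u * h2
  have k4 : g.1 1 1 - 1 = (v * (-(g.1 1 0)) + u * (g.1 1 1 - 1)) * a.x := by
    linear_combination (-(g.1 1 1 - 1)) * huv + v * h2
  generalize (v * (-(g.1 0 0 - 1)) + u * g.1 0 1) = l at k1 k2
  generalize (v * (-(g.1 1 0)) + u * (g.1 1 1 - 1)) = m at k3 k4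
  have hlm : m * a.x = l * a.y := by
    have e1 : g.1 0 0 = 1 - l * a.y := by linarith
    have e2 : g.1 1 1 = 1 + m * a.x := by linarith
    rw [e1, e2, k2, k3] at hd
    linear_combination hd
  -- `(l, m) = n (x, y)`
  have hl : l = (u * l + v * m) * a.x := by
    linear_combination (-l) * huv + (-v) * hlm
  have hm : m = (u * l + v * m) * a.y := by
    linear_combination (-m) * huv + u * hlm
  refine ⟨u * l + v * m, ?_⟩
  generalize u * l + v * m = n at hl hm
  apply par_ext <;>
  simp only [par, Matrix.of_apply, Matrix.cons_val', Matrix.cons_val_zero, Matrix.cons_val_one,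
      Matrix.cons_val_fin_one, Matrix.empty_val']
  · rw [hl] at k1; linarith
  · rw [k2, hl]
  · rw [k3, hm]; ring
  · rw [hm] at k4; linarith

lemma eq_par_or (g : SLZ) (a : Cusp) (h : g • a = a) :
    ∃ n : ℤ, g = par a n ∨ g = -par a n := by
  have h1 := smul_x g a
  have h2 := smul_y g a
  rw [h] at h1 h2
  rcases eps_or g a with he | he
  · rw [he, one_mul] at h1 h2
    obtain ⟨n, hn⟩ := eq_par g a h1.symm h2.symm
    exact ⟨n, Or.inl hn⟩
  · rw [he] at h1 h2
    obtain ⟨n, hn⟩ := eq_par (-g) a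
      (by simp only [Matrix.SpecialLinearGroup.coe_neg, Matrix.neg_apply]; linarith)
      (by simp only [Matrix.SpecialLinearGroup.coe_neg, Matrix.neg_apply]; linarith)
    exact ⟨n, Or.inr (by rw [← hn, neg_neg])⟩

/-- `n` is a period of the cusp. -/
def Per (G : Subgroup SLZ) (a : Cusp) (n : ℤ) : Prop := par a n ∈ G ∨ -par a n ∈ G

lemma Per.add {G : Subgroup SLZ} {a : Cusp} {m n : ℤ} (hm : Per G a m) (hn : Per G a n) :
    Per G a (m + n) := by
  unfold Per at *
  rcases hm with hm | hm <;> rcases hn with hn | hn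
  · left; rw [← par_mul]; exact G.mul_mem hm hn
  · right; rw [← par_mul, ← mul_neg]; exact G.mul_mem hm hn
  · right; rw [← par_mul, ← neg_mul]; exact G.mul_mem hm hn
  · left; rw [← par_mul, ← neg_mul_neg]; exact G.mul_mem hm hn

lemma Per.neg {G : Subgroup SLZ} {a : Cusp} {m : ℤ} (hm : Per G a m) : Per G a (-m) := by
  unfold Per at *
  rw [← par_inv]
  rcases hm with hm | hm
  · left; exact G.inv_mem hm
  · right
    have h := G.inv_mem hm
    have e : (-par a m)⁻¹ = -(par a m)⁻¹ := by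
      rw [inv_eq_iff_mul_eq_one, neg_mul_neg, mul_inv_cancel]
    rwa [e] at h

lemma Per.zero (G : Subgroup SLZ) (a : Cusp) : Per G a 0 := by
  left; rw [par_zero]; exact G.one_mem

lemma Per.nsmul {G : Subgroup SLZ} {a : Cusp} {m : ℤ} (hm : Per G a m) (n : ℕ) :
    Per G a (n * m) := by
  induction n with
  | zero => simpa using Per.zero G a
  | succ n ih =>
    have := ih.add hm
    have e : (n : ℤ) * m + m = ((n + 1 : ℕ) : ℤ) * m := by push_cast; ring
    rwa [e] at this

lemma Per.zsmul {G : Subgroup SLZ} {a : Cusp} {m : ℤ} (hm : Per G a m) (n : ℤ) :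
    Per G a (n * m) := by
  obtain ⟨k, rfl | rfl⟩ := Int.eq_nat_or_neg n
  · exact hm.nsmul k
  · have := (hm.nsmul k).neg
    rwa [← neg_mul] at this

lemma width_spec {G : Subgroup SLZ} (hG : G.FiniteIndex) (a : Cusp) :
    0 < width G a ∧ Per G a (width G a) := by
  have hne : {n : ℕ | 0 < n ∧ (par a n ∈ G ∨ -par a n ∈ G)}.Nonempty := by
    obtain ⟨n, hn, -, hmem⟩ := Subgroup.exists_pow_mem_of_index_ne_zero hG.index_ne_zero (par a 1)
    refine ⟨n, hn, Or.inl ?_⟩
    rwa [par_pow] at hmem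
  exact Nat.sInf_mem hne

lemma width_le {G : Subgroup SLZ} (a : Cusp) {n : ℕ} (hn : 0 < n) (h : Per G a n) :
    width G a ≤ n := Nat.sInf_le ⟨hn, h⟩

end H86

open H86 in
/-- STAB -/
theorem stab_statement : StabStatement := by
  intro G hG a
  obtain ⟨hw, hp⟩ := width_spec hG.fin a
  refine ⟨hw, hp, ?_⟩
  intro g hg hga
  obtain ⟨n, hn⟩ := eq_par_or g a hga
  have hper : Per G a n := by
    rcases hn with rfl | rfl
    · exact Or.inl hg
    · exact Or.inr hg
  set w : ℤ := (width G a : ℤ) with hwdef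
  have hw' : 0 < w := by rw [hwdef]; exact_mod_cast hw
  have hmod : Per G a (n % w) := by
    have h := hper.add ((hp.zsmul (n / w)).neg)
    have e : n + -(n / w * (width G a : ℤ)) = n % w := by
      have := Int.emod_add_mul_ediv n w
      rw [← hwdef]
      linarith
    rwa [e] at h
  have h0 : 0 ≤ n % w := Int.emod_nonneg _ hw'.ne'
  have hlt : n % w < w := Int.emod_lt_of_pos _ hw'
  have hz : n % w = 0 := by
    by_contra hne
    have hpos : 0 < n % w := lt_of_le_of_ne h0 (Ne.symm hne)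
    obtain ⟨k, hk⟩ := Int.eq_ofNat_of_zero_le h0
    rw [hk] at hmod hpos hlt
    have := width_le a (by exact_mod_cast hpos) hmod
    have h3 : (width G a : ℤ) ≤ k := by exact_mod_cast this
    omega
  have hdvd : n = (n / w) * w := by
    have := Int.emod_add_mul_ediv n w
    linarith
  refine ⟨n / w, ?_⟩
  rw [← hdvd]
  exact hn

end Pool.Agent.Lib.MP_eee7a8_ag.TB
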