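import Pool.Agent.Lib.MP_eee7a8_ag.TB.Iface1

/-!
# TAGBR, module FAREY
-/

set_option autoImplicit false

open Matrix

namespace Pool.Agent.Lib.MP_eee7a8_ag.TB

namespace H86

/-! ### `SameArc` is an equivalence relation -/

lemma sameArc_refl (G : Subgroup SLZ) (a b : Cusp) : SameArc G a b a b :=
  ⟨1, G.one_mem, Or.inl ⟨one_smul _ a, one_smul _ b⟩⟩

lemma sameArc_symm {G : Subgroup SLZ} {a b c d : Cusp} (h : SameArc G a b c d) :
    SameArc G c d a b := by
  obtain ⟨g, hg, ⟨h1, h2⟩ | ⟨h1, h2⟩⟩ := h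
  · exact ⟨g⁻¹, G.inv_mem hg, Or.inl ⟨by rw [← h1, inv_smul_smul], by rw [← h2, inv_smul_smul]⟩⟩
  · exact ⟨g⁻¹, G.inv_mem hg, Or.inr ⟨by rw [← h2, inv_smul_smul], by rw [← h1, inv_smul_smul]⟩⟩

lemma sameArc_trans {G : Subgroup SLZ} {a b c d e f : Cusp} (h : SameArc G a b c d)
    (h' : SameArc G c d e f) : SameArc G a b e f := by
  obtain ⟨g, hg, h⟩ := h
  obtain ⟨g', hg', h'⟩ := h'
  refine ⟨g' * g, G.mul_mem hg' hg, ?_⟩
  rw [mul_smul, mul_smul]
  rcases h with ⟨h1, h2⟩ | ⟨h1, h2⟩ <;> rcases h' with ⟨h3, h4⟩ | ⟨h3, h4⟩ <;>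
    rw [h1, h2, h3, h4] <;> simp

lemma sameArc_dt {G : Subgroup SLZ} {a b c d : Cusp} (h : SameArc G a b c d) :
    |dt a b| = |dt c d| := by
  obtain ⟨g, hg, ⟨h1, h2⟩ | ⟨h1, h2⟩⟩ := h
  · rw [← h1, ← h2, abs_dt_smul]
  · rw [← h1, ← h2, dt_abs_symm, abs_dt_smul]

/-! ### Cusps from vectors -/

lemma exists_cusp (X Y : ℤ) (h : IsCoprime X Y) :
    ∃ (c : Cusp) (e : ℤ), e * e = 1 ∧ c.x = e * X ∧ c.y = e * Y := by
  obtain ⟨h1, h2, h3⟩ := mk'_aux X Y h
  set e := (if 0 < Y then (1 : ℤ) else if Y < 0 then -1 else X) with he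
  have hee : e * e = 1 := by rcases h3 with h3 | h3 <;> rw [h3] <;> norm_num
  refine ⟨Cusp.mk' X Y h, e, hee, ?_, ?_⟩
  · linear_combination (-(Cusp.mk' X Y h).x) * hee + e * h1
  · linear_combination (-(Cusp.mk' X Y h).y) * hee + e * h2

lemma abs_eq_one_of_sq {e : ℤ} (h : e * e = 1) : |e| = 1 := by
  rcases mul_self_eq_one_iff.1 h with h | h <;> rw [h] <;> norm_num

/-- through the edge `cd` of a Farey triangle `acd` leaves the geodesic `ab` -/
lemma farey_star (a b : Cusp) (hab : a ≠ b) (h1 : |dt a b| ≠ 1) :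
    ∃ c d : Cusp, |dt a c| = 1 ∧ |dt a d| = 1 ∧ |dt c d| = 1 ∧ Cross a b c d := by
  obtain ⟨u, v, huv⟩ := a.cop
  have hm0 : dt a b ≠ 0 := dt_ne_zero hab
  obtain ⟨ε, hε, hεm⟩ : ∃ ε : ℤ, ε * ε = 1 ∧ ε * dt a b = |dt a b| := by
    rcases lt_or_gt_of_ne hm0 with h | h
    · exact ⟨-1, by norm_num, by rw [abs_of_neg h]; ring⟩
    · exact ⟨1, by norm_num, by rw [abs_of_pos h]; ring⟩
  -- the vectors `c_n = c_0 + n a`
  have hcop : ∀ n : ℤ, IsCoprime (-v + n * a.x) (u + n * a.y) := by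
    intro n
    exact ⟨-a.y, a.x, by linear_combination huv⟩
  set s : ℤ := b.x * u + b.y * v with hs
  have hr := Int.emod_add_mul_ediv s (dt a b)
  have hr0 : 0 ≤ s % (dt a b) := Int.emod_nonneg _ hm0
  have hr1 : s % (dt a b) < |dt a b| := Int.emod_lt_abs _ hm0
  set n : ℤ := s / dt a b with hn
  have hval : ∀ k : ℤ, b.x * (u + k * a.y) - b.y * (-v + k * a.x) = s - k * dt a b := by
    intro k
    rw [hs]
    unfold dt
    ring
  have hrne : s % (dt a b) ≠ 0 := by
    intro h0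
    have h2 : s - n * dt a b = 0 := by rw [h0] at hr; linarith
    rw [← hval n] at h2
    have h3 := prim_eq (hcop n) b.cop (by linarith)
    apply h1
    have h4 : dt a b = 1 ∨ dt a b = -1 := by
      unfold dt
      rcases h3 with ⟨hx, hy⟩ | ⟨hx, hy⟩
      · left; rw [hx, hy]; linear_combination huv
      · right; rw [hx, hy]; linear_combination (-1) * huv
    rcases h4 with h4 | h4 <;> rw [h4] <;> norm_num
  have hrpos : 0 < s % (dt a b) := lt_of_le_of_ne hr0 (Ne.symm hrne)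
  obtain ⟨c, e, he, hcx, hcy⟩ := exists_cusp _ _ (hcop n)
  obtain ⟨d, e', he', hdx, hdy⟩ := exists_cusp _ _ (hcop (n + ε))
  have hac : dt a c = e := by
    unfold dt; rw [hcx, hcy]; linear_combination e * huv
  have had : dt a d = e' := by
    unfold dt; rw [hdx, hdy]; linear_combination e' * huv
  have hbc : dt b c = e * (s % (dt a b)) := by
    have : s % (dt a b) = s - n * dt a b := by linarith
    rw [this, ← hval]
    show b.x * c.y - b.y * c.x = _
    rw [hcx, hcy]; ring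
  have hbd : dt b d = e' * (s % (dt a b) - |dt a b|) := by
    have : s % (dt a b) - |dt a b| = s - (n + ε) * dt a b := by rw [← hεm]; linarith
    rw [this, ← hval]
    show b.x * d.y - b.y * d.x = _
    rw [hdx, hdy]; ring
  have hcd : dt c d = -(e * e' * ε) := by
    unfold dt; rw [hcx, hcy, hdx, hdy]
    linear_combination (-(e * e' * ε)) * huv
  refine ⟨c, d, ?_, ?_, ?_, ?_⟩
  · rw [hac]; exact abs_eq_one_of_sq he
  · rw [had]; exact abs_eq_one_of_sq he'
  · rw [hcd]
    apply abs_eq_one_of_sq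
    linear_combination (e' * e' * ε * ε) * he + (ε * ε) * he' + hε
  · unfold Cross
    rw [hac, had, hbc, hbd]
    have : e * (e * (s % dt a b)) * (e' * (e' * (s % dt a b - |dt a b|))) =
        (s % dt a b) * (s % dt a b - |dt a b|) := by
      linear_combination ((s % dt a b) * (e' * e' * (s % dt a b - |dt a b|))) * he +
        ((s % dt a b) * (s % dt a b - |dt a b|)) * he'
    rw [this]
    exact mul_neg_of_pos_of_neg hrpos (by linarith)

/-- the two Farey triangles at an edge -/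
lemma farey_tri (c d : Cusp) (h : |dt c d| = 1) :
    ∃ a f : Cusp, |dt a c| = 1 ∧ |dt a d| = 1 ∧ |dt f c| = 1 ∧ |dt f d| = 1 ∧ Cross a f c d := by
  have hD : dt c d * dt c d = 1 := by
    rcases abs_eq_abs.1 (h.trans abs_one.symm) with h | h <;> rw [h] <;> norm_num
  have hD' : (c.x * d.y - c.y * d.x) * (c.x * d.y - c.y * d.x) = 1 := hD
  have h1 : IsCoprime (c.x + d.x) (c.y + d.y) :=
    ⟨-c.y * (c.x * d.y - c.y * d.x), c.x * (c.x * d.y - c.y * d.x), by linear_combination hD'⟩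
  have h2 : IsCoprime (c.x - d.x) (c.y - d.y) :=
    ⟨c.y * (c.x * d.y - c.y * d.x), -c.x * (c.x * d.y - c.y * d.x), by linear_combination hD'⟩
  obtain ⟨a, e, he, hax, hay⟩ := exists_cusp _ _ h1
  obtain ⟨f, e', he', hfx, hfy⟩ := exists_cusp _ _ h2
  have hac : dt a c = -(e * dt c d) := by unfold dt; rw [hax, hay]; ring
  have had : dt a d = e * dt c d := by unfold dt; rw [hax, hay]; ring
  have hfc : dt f c = e' * dt c d := by unfold dt; rw [hfx, hfy]; ring
  have hfd : dt f d = e' * dt c d := by unfold dt; rw [hfx, hfy]; ring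
  have k : ∀ e : ℤ, e * e = 1 → |e * dt c d| = 1 := by
    intro e he
    apply abs_eq_one_of_sq
    linear_combination (dt c d * dt c d) * he + hD
  refine ⟨a, f, ?_, ?_, ?_, ?_, ?_⟩
  · rw [hac, abs_neg]; exact k e he
  · rw [had]; exact k e he
  · rw [hfc]; exact k e' he'
  · rw [hfd]; exact k e' he'
  · unfold Cross
    rw [hac, had, hfc, hfd]
    have : -(e * dt c d) * (e' * dt c d) * (e * dt c d * (e' * dt c d)) = -1 := by
      linear_combination (-(e' * e' * (dt c d * dt c d) * (dt c d * dt c d))) * he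
        - ((dt c d * dt c d) * (dt c d * dt c d)) * he' - (dt c d * dt c d + 1) * hD
    rw [this]
    norm_num

/-- Farey edges do not cross. -/
lemma farey_nocross {a b c d : Cusp} (h1 : |dt a b| = 1) (h2 : |dt c d| = 1) :
    ¬ Cross a b c d := by
  intro h
  have hp := h.ptolemy
  obtain ⟨-, h13, h14, h23, h24, -⟩ := h.ne
  rw [h1, h2] at hp
  have k1 := one_le_abs_dt h13
  have k2 := one_le_abs_dt h14
  have k3 := one_le_abs_dt h23
  have k4 := one_le_abs_dt h24
  nlinarith [mul_le_mul k1 k4 (by norm_num) (by linarith),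
    mul_le_mul k2 k3 (by norm_num) (by linarith)]

/-! ### The family -/

section fam

variable (G : Subgroup SLZ)

/-- the edge of a coset -/
noncomputable def edge (q : SLZ ⧸ G) : Cusp × Cusp := (q.out⁻¹ • infty, q.out⁻¹ • zero)

/-- equality of arcs on cosets -/
def edgeSetoid : Setoid (SLZ ⧸ G) where
  r q q' := SameArc G (edge G q).1 (edge G q).2 (edge G q').1 (edge G q').2
  iseqv := ⟨fun _ => sameArc_refl G _ _, fun h => sameArc_symm h, fun h h' => sameArc_trans h h'⟩

lemma edge_dt (q : SLZ ⧸ G) : |dt (edge G q).1 (edge G q).2| = 1 := by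
  unfold edge
  rw [abs_dt_smul]
  rfl

lemma edge_surj (ht : TransStatement) {a b : Cusp} (h : |dt a b| = 1) :
    ∃ q : SLZ ⧸ G, SameArc G (edge G q).1 (edge G q).2 a b := by
  obtain ⟨g, hg1, hg2⟩ := ht.2 a b h
  refine ⟨((g⁻¹ : SLZ) : SLZ ⧸ G), ?_⟩
  obtain ⟨h, hh⟩ := QuotientGroup.mk_out_eq_mul G (g⁻¹)
  refine ⟨(h : SLZ), h.2, Or.inl ⟨?_, ?_⟩⟩
  · unfold edge
    rw [hh, _root_.mul_inv_rev, inv_inv]
    show (h : SLZ) • (((h : SLZ)⁻¹ * g) • infty) = a
    rw [mul_smul, smul_inv_smul]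
    exact hg1
  · unfold edge
    rw [hh, _root_.mul_inv_rev, inv_inv]
    show (h : SLZ) • (((h : SLZ)⁻¹ * g) • zero) = b
    rw [mul_smul, smul_inv_smul]
    exact hg2

end fam

end H86

open H86 in
/-- FAREY -/
theorem farey_statement (ht : TransStatement) : FareyStatement := by
  intro G hG
  have := hG.fin
  have : Finite (SLZ ⧸ G) := inferInstance
  have : Finite (Quotient (edgeSetoid G)) := Quotient.finite _
  let φ := Finite.equivFin (Quotient (edgeSetoid G))
  let T : Fam (Fin (Nat.card (Quotient (edgeSetoid G)))) :=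
    ⟨fun i => (edge G (φ.symm i).out).1, fun i => (edge G (φ.symm i).out).2⟩
  have hE : ∀ a b, T.E G a b ↔ |dt a b| = 1 := by
    intro a b
    constructor
    · rintro ⟨i, hi⟩
      rw [← sameArc_dt hi]
      exact edge_dt G _
    · intro h
      obtain ⟨q, hq⟩ := edge_surj G ht h
      refine ⟨φ (Quotient.mk (edgeSetoid G) q), ?_⟩
      have h2 : (edgeSetoid G).r (Quotient.mk (edgeSetoid G) q).out q := Quotient.mk_out q
      show SameArc G (edge G (φ.symm (φ (Quotient.mk (edgeSetoid G) q))).out).1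
        (edge G (φ.symm (φ (Quotient.mk (edgeSetoid G) q))).out).2 a b
      rw [Equiv.symm_apply_apply]
      exact sameArc_trans h2 hq
  refine ⟨_, T, ?_, hE⟩
  refine { ne := ?_, nocross := ?_, inj := ?_, star := ?_, tri := ?_ }
  · intro i h
    have h1 : |dt (T.s i) (T.t i)| = 1 := edge_dt G _
    rw [h, dt_self] at h1
    norm_num at h1
  · intro a b c d h1 h2
    exact farey_nocross ((hE a b).1 h1) ((hE c d).1 h2)
  · intro i j h
    have h1 : (edgeSetoid G).r (φ.symm i).out (φ.symm j).out := h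
    have h2 := Quotient.sound (s := edgeSetoid G) h1
    rw [Quotient.out_eq, Quotient.out_eq] at h2
    exact φ.symm.injective h2
  · intro a b hab
    by_cases h : |dt a b| = 1
    · exact Or.inl ((hE a b).2 h)
    · right
      obtain ⟨c, d, h1, h2, h3, h4⟩ := farey_star a b hab h
      exact ⟨c, d, (hE _ _).2 h1, (hE _ _).2 h2, (hE _ _).2 h3, h4⟩
  · intro c d h
    obtain ⟨a, f, h1, h2, h3, h4, h5⟩ := farey_tri c d ((hE c d).1 h)
    exact ⟨a, f, (hE _ _).2 h1, (hE _ _).2 h2, (hE _ _).2 h3, (hE _ _).2 h4, h5⟩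

end Pool.Agent.Lib.MP_eee7a8_ag.TB
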