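import Pool.Agent.Lib.MP_eee7a8_ag.TB.Iface1

/-!
# TAGBR, module PLUCKER
-/

set_option autoImplicit false

open Matrix

namespace Pool.Agent.Lib.MP_eee7a8_ag.TB

namespace H86

variable {G : Subgroup SLZ} {K : Type} [Field K] [Algebra ℂ K]

lemma sl_anti (L : Lam G K) (a b : Cusp) : L.sl a b = -L.sl b a := by
  unfold Lam.sl
  rw [dt_symm a b, Int.sign_neg, L.symm a b]
  push_cast
  ring

lemma sl_self (L : Lam G K) (a : Cusp) : L.sl a a = 0 := by
  unfold Lam.sl
  rw [L.self, mul_zero]

lemma sl_smul (L : Lam G K) (g : SLZ) (hg : g ∈ G) (a b : Cusp) :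
    L.sl (g • a) (g • b) = ((eps g a * eps g b : ℤ) : K) * L.sl a b := by
  unfold Lam.sl
  rw [L.inv g hg, dt_smul, Int.sign_mul]
  have h : Int.sign (eps g a * eps g b) = eps g a * eps g b := by
    rcases eps_or g a with h1 | h1 <;> rcases eps_or g b with h2 | h2 <;> rw [h1, h2] <;> rfl
  rw [h]
  push_cast
  ring

/-- signs in the four point relation -/
lemma sl_cross (L : Lam G K) {a b c d : Cusp} (h : Cross a b c d) :
    L.sl a b * L.sl c d - L.sl a c * L.sl b d + L.sl a d * L.sl b c = 0 := by
  have hp := plucker a b c d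
  have hL := L.ptolemy a b c d h
  unfold Cross at h
  have h1 : (dt a c * dt b d) * (dt a d * dt b c) < 0 := by nlinarith
  unfold Lam.sl
  have e1 : ((Int.sign (dt a b) : ℤ) : K) * L.lam a b * (((Int.sign (dt c d) : ℤ) : K) * L.lam c d)
      = ((Int.sign (dt a b * dt c d) : ℤ) : K) * (L.lam a b * L.lam c d) := by
    rw [Int.sign_mul]; push_cast; ring
  have e2 : ((Int.sign (dt a c) : ℤ) : K) * L.lam a c * (((Int.sign (dt b d) : ℤ) : K) * L.lam b d)
      = ((Int.sign (dt a c * dt b d) : ℤ) : K) * (L.lam a c * L.lam b d) := by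
    rw [Int.sign_mul]; push_cast; ring
  have e3 : ((Int.sign (dt a d) : ℤ) : K) * L.lam a d * (((Int.sign (dt b c) : ℤ) : K) * L.lam b c)
      = ((Int.sign (dt a d * dt b c) : ℤ) : K) * (L.lam a d * L.lam b c) := by
    rw [Int.sign_mul]; push_cast; ring
  rw [e1, e2, e3, hL]
  rcases lt_or_gt_of_ne (show dt a c * dt b d ≠ 0 from fun e => by rw [e] at h1; simp at h1)
    with h2 | h2
  · have h3 : 0 < dt a d * dt b c := by nlinarith
    have h4 : dt a b * dt c d < 0 := by linarith
    rw [Int.sign_eq_neg_one_of_neg h2, Int.sign_eq_one_of_pos h3, Int.sign_eq_neg_one_of_neg h4]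
    push_cast
    ring
  · have h3 : dt a d * dt b c < 0 := by nlinarith
    have h4 : 0 < dt a b * dt c d := by linarith
    rw [Int.sign_eq_one_of_pos h2, Int.sign_eq_neg_one_of_neg h3, Int.sign_eq_one_of_pos h4]
    push_cast
    ring

lemma sl_plucker (L : Lam G K) (a b c d : Cusp) :
    L.sl a b * L.sl c d - L.sl a c * L.sl b d + L.sl a d * L.sl b c = 0 := by
  by_cases hab : a = b
  · subst hab; rw [sl_self]; ring
  by_cases hac : a = c
  · subst hac; rw [sl_self, sl_anti L b a]; ring
  by_cases had : a = d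
  · subst had; rw [sl_self, sl_anti L c a, sl_anti L b a]; ring
  by_cases hbc : b = c
  · subst hbc; rw [sl_self]; ring
  by_cases hbd : b = d
  · subst hbd; rw [sl_self, sl_anti L c b]; ring
  by_cases hcd : c = d
  · subst hcd; rw [sl_self]; ring
  have hp := plucker a b c d
  have nab := dt_ne_zero hab
  have nac := dt_ne_zero hac
  have nad := dt_ne_zero had
  have nbc := dt_ne_zero hbc
  have nbd := dt_ne_zero hbd
  have ncd := dt_ne_zero hcd
  by_cases h1 : (dt a c * dt b d) * (dt a d * dt b c) < 0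
  · apply sl_cross L
    unfold Cross
    nlinarith
  by_cases h2 : 0 < (dt a b * dt c d) * (dt a d * dt b c)
  · have h : Cross a c b d := by
      unfold Cross
      rw [dt_symm c b]
      nlinarith
    have := sl_cross L h
    rw [sl_anti L c b] at this
    linear_combination -this
  by_cases h3 : (dt a b * dt c d) * (dt a c * dt b d) < 0
  · have h : Cross a d b c := by
      unfold Cross
      rw [dt_symm d b, dt_symm d c]
      nlinarith
    have := sl_cross L h
    rw [sl_anti L d c, sl_anti L d b] at this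
    linear_combination this
  exfalso
  have nP : dt a b * dt c d ≠ 0 := mul_ne_zero nab ncd
  have nQ : dt a c * dt b d ≠ 0 := mul_ne_zero nac nbd
  have nR : dt a d * dt b c ≠ 0 := mul_ne_zero nad nbc
  generalize dt a b * dt c d = P at *
  generalize dt a c * dt b d = Q at *
  generalize dt a d * dt b c = R at *
  push Not at h1 h2 h3
  rcases lt_or_gt_of_ne nP with hP | hP
  · rcases lt_or_gt_of_ne nR with hR | hR
    · nlinarith [mul_pos_of_neg_of_neg hP hR]
    · have hQ : Q ≤ 0 := by nlinarith
      have hQ' : Q < 0 := lt_of_le_of_ne hQ nQ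
      nlinarith [mul_neg_of_neg_of_pos hQ' hR]
  · rcases lt_or_gt_of_ne nR with hR | hR
    · have hQ : 0 ≤ Q := by nlinarith
      have hQ' : 0 < Q := lt_of_le_of_ne hQ (Ne.symm nQ)
      nlinarith [mul_neg_of_pos_of_neg hQ' hR]
    · nlinarith [mul_pos hP hR]

end H86

/-- PLUCKER -/
theorem plucker_statement : PluckerStatement := by
  intro G K _ _ L
  exact ⟨H86.sl_plucker L, H86.sl_anti L, fun g hg a b => H86.sl_smul L g hg a b⟩

end Pool.Agent.Lib.MP_eee7a8_ag.TB
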